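import Pool.Agent.Lib.MP_7903c7_al.NC.Contr

set_option autoImplicit false

namespace Pool.Agent.Lib.MP_7903c7_al.NC

open Finset Pool.Agent.Lib.MP_7903c7_al.RF
open scoped Classical Pointwise

variable {G B Λ : Type} [Group G] [Ring B] [CommRing Λ]

lemma int_map (d : Dat G B Λ) {A B : Type} [AddCommGroup A] [Module Λ A] [AddCommGroup B]
    [Module Λ B] (φ : A →ₗ[Λ] B) {M : ℕ} (hM : 0 < M) (b : ℤ → Prop) (f : (ℤ → G) → A) :
    φ (d.int M b f) = d.int M b fun x => φ (f x) := by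
  unfold Dat.int
  rw [map_finsum φ]
  · simp only [map_smul]
  · refine (int_finite d M hM b).subset fun q hq h0 => hq ?_
    simp only [h0, zero_smul]

lemma int_congr (d : Dat G B Λ) {A : Type} [AddCommGroup A] [Module Λ A] (M : ℕ)
    {b b' : ℤ → Prop} (hb : ∀ s, b s ↔ b' s) {f f' : (ℤ → G) → A}
    (hf : ∀ x, IsLoop d.g M x → f x = f' x) : d.int M b f = d.int M b' f' := by
  have : b = b' := funext fun s => propext (hb s)
  subst this
  unfold Dat.int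
  exact finsum_congr fun q => by rw [hf _ q.out.2]

lemma int_supp (d : Dat G B Λ) {Y : Type} {M : ℕ} (hM : 0 < M) (b : ℤ → Prop)
    (f : (ℤ → G) → (Y →₀ Λ)) {y : Y} (hy : y ∈ (d.int M b f).support) :
    ∃ x, IsLoop d.g M x ∧ amp d.T d.E M b x ≠ 0 ∧ y ∈ (f x).support := by
  by_contra hcon
  push Not at hcon
  apply Finsupp.mem_support_iff.mp hy
  have := int_map d (Finsupp.lapply (R := Λ) y) hM b f
  rw [Finsupp.lapply_apply] at this
  rw [this]
  unfold Dat.int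
  refine finsum_eq_zero_of_forall_eq_zero fun q => ?_
  by_cases h0 : amp d.T d.E M b q.out.1 = 0
  · rw [h0, zero_smul]
  · simp only [Finsupp.lapply_apply]
    rw [Finsupp.notMem_support_iff.mp (hcon _ q.out.2 h0), smul_zero]

/-- The realisation of a cell. -/
noncomputable def Phi (d : Dat G B Λ) {P : Type} (Ψ : List (ℤ → G) → (List P →₀ Λ)) (N D : ℕ)
    (A : Set (ℕ → ℤ)) : List P →₀ Λ :=
  d.int (N * (D + 1)) (pat D A) fun Γ => Ψ (lst D Γ)

section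
variable {d : Dat G B Λ} {P : Type} {Ψ : List (ℤ → G) → (List P →₀ Λ)} {N : ℕ}

lemma phi_face (hN : 0 < N)
    (hC : ∀ l : List (ℤ → G), (∀ γ ∈ l, IsLoop d.g N γ) → ∀ c ∈ d.C,
      Ψ (l.map fun γ t => c * γ t) = Ψ l)
    (hdel : ∀ l : List (ℤ → G), (∀ γ ∈ l, IsLoop d.g N γ) → ∀ j < l.length, 2 ≤ l.length →
      Ψ (l.eraseIdx j) = Finsupp.mapDomain (fun l' => l'.eraseIdx j) (Ψ l))
    {D m j : ℕ} {A : Set (ℕ → ℤ)} (hA : Cell N (D + 1) m A) (hj : j ≤ D + 1) :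
    Finsupp.mapDomain (fun l => l.eraseIdx j) (Phi d Ψ N (D + 1) A) =
      Phi d Ψ N D (pull (face (D + 1) j) A) := by
  have h1 := int_map d (Finsupp.lmapDomain Λ Λ fun l : List P => l.eraseIdx j)
    (M := N * (D + 1 + 1)) (by positivity) (pat (D + 1) A) fun Γ => Ψ (lst (D + 1) Γ)
  have h2 := int_contract d (N * (D + 1 + 1)) (N * (D + 1)) (by positivity) (skip D j)
    (skip_mono D j) (skip_per D j N) (pat (D + 1) A) (pat_per hA) (fun Γ => Ψ (lst D Γ))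
    (fun x hx c hc => by rw [lst_mul, hC _ (lst_loop hx) c hc])
  unfold Phi
  rw [← int_congr d _ (pat_skip (j := j) fun τ hτ => hA.traj hτ) fun _ _ => rfl, ← h2]
  refine h1.trans (int_congr d _ (fun _ => Iff.rfl) fun x hx => ?_)
  rw [lst_skip hj, hdel _ (lst_loop hx) j (by rw [lst_length]; omega) (by rw [lst_length]; omega)]
  rfl

lemma phi_sh (hN : 0 < N) {T : P → P}
    (hC : ∀ l : List (ℤ → G), (∀ γ ∈ l, IsLoop d.g N γ) → ∀ c ∈ d.C,
      Ψ (l.map fun γ t => c * γ t) = Ψ l)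
    (hsh : ∀ l : List (ℤ → G), (∀ γ ∈ l, IsLoop d.g N γ) →
      Ψ (l.map fun γ t => γ (t - 1)) = Finsupp.mapDomain (List.map T) (Ψ l))
    {D m : ℕ} {A : Set (ℕ → ℤ)} (hA : Cell N D m A) :
    tm Λ T (Phi d Ψ N D A) = Phi d Ψ N D (sh A) := by
  have h1 := int_map d (tm Λ T) (M := N * (D + 1)) (by positivity) (pat D A)
    fun Γ => Ψ (lst D Γ)
  have h2 := int_contract d (N * (D + 1)) (N * (D + 1)) (by positivity)
    (fun s => s - (D + 1 : ℕ)) (fun a b h => by simpa using h) (fun i => by ring) (pat D A)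
    (pat_per hA) (fun Γ => Ψ (lst D Γ))
    (fun x hx c hc => by rw [lst_mul, hC _ (lst_loop hx) c hc])
  unfold Phi
  rw [← int_congr d _ (pat_sh D A) fun _ _ => rfl, ← h2]
  refine h1.trans (int_congr d _ (fun _ => Iff.rfl) fun x hx => ?_)
  rw [lst_sh, hsh _ (lst_loop hx)]
  rfl

lemma phi_pt (hN : 0 < N) (hmass : ∀ γ, IsLoop d.g N γ → eps P Λ (Ψ [γ]) = 1) :
    eps P Λ (Phi d Ψ N 0 (per N {fun _ => 0})) =
      (d.C.relIndex (Subgroup.centralizer {d.g}) : Λ) * d.tr := by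
  have hA : Cell N 0 1 (per N {fun _ => 0}) :=
    ⟨_, singleton_nonempty _, by simp, fun τ hτ => by
      rw [mem_singleton.mp hτ]
      exact ⟨monotone_const, fun _ => rfl, fun _ => by simp⟩, rfl⟩
  have h1 := int_map d (eps P Λ) (M := N * (0 + 1)) (by positivity)
    (pat 0 (per N {fun _ => 0})) fun Γ => Ψ (lst 0 Γ)
  have h2 := int_contract d (N * (0 + 1)) 1 one_pos (fun i => i * N)
    (fun a b h => mul_lt_mul_of_pos_right h (by exact_mod_cast hN)) (fun i => by push_cast; ring)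
    (pat 0 (per N {fun _ => 0})) (pat_per hA) (fun _ => (1 : Λ)) (fun _ _ _ _ => rfl)
  unfold Phi
  rw [h1, ← int_one, ← int_congr d 1 (fun i => iff_true_intro (pat_pt hN i)) fun _ _ => rfl, ← h2]
  refine int_congr d _ (fun _ => Iff.rfl) fun x hx => ?_
  exact hmass _ (lst_loop hx _ (List.mem_singleton_self _))

end

theorem abc (d : Dat G B Λ) (S : Finset G) (h1 : (1 : G) ∈ S) {p J : ℕ} (hp : p.Prime)
    (hJ : (p : Λ) ^ J = 0)
    (hfil : ∀ h j, h ∉ (S : Set G) ^ (2 * j + 1) → ∃ y, d.E h = p ^ (j + 1) • y)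
    (N : ℕ) (hN0 : 0 < N) (hN : (N : Λ) = 0) {P ι : Type} (T : P → P) (hT : ∀ v, T^[N] v = v)
    (s : Finset ι) (a : ι → ℕ) (w : ι → P → ℤ) (F : ι → P → ℂ)
    (hw : ∀ i ∈ s, ∀ v, ¬ (p : ℤ) ^ (a i + 1) ∣ w i v)
    (hwT : ∀ i ∈ s, ∀ v, w i (T v) = w i v)
    (hF : ∀ i ∈ s, ∀ v, F i (T v) = ee ((w i v : ℝ) / N) * F i v)
    (Ψ : List (ℤ → G) → (List P →₀ Λ))
    (hC : ∀ l : List (ℤ → G), (∀ γ ∈ l, IsLoop d.g N γ) → ∀ c ∈ d.C,
      Ψ (l.map fun γ t => c * γ t) = Ψ l)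
    (hsh : ∀ l : List (ℤ → G), (∀ γ ∈ l, IsLoop d.g N γ) →
      Ψ (l.map fun γ t => γ (t - 1)) = Finsupp.mapDomain (List.map T) (Ψ l))
    (hdel : ∀ l : List (ℤ → G), (∀ γ ∈ l, IsLoop d.g N γ) → ∀ j < l.length, 2 ≤ l.length →
      Ψ (l.eraseIdx j) = Finsupp.mapDomain (fun l' => l'.eraseIdx j) (Ψ l))
    (hlen : ∀ l : List (ℤ → G), (∀ γ ∈ l, IsLoop d.g N γ) →
      ∀ l' ∈ (Ψ l).support, l'.length = l.length)
    (hmass : ∀ γ, IsLoop d.g N γ → eps P Λ (Ψ [γ]) = 1)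
    (hgood : ∀ l : List (ℤ → G), l ≠ [] →
      (∀ γ ∈ l, Good d.g S N (2 * J + (4 * s.card + 1)) γ) →
      (∀ γ ∈ l, ∀ γ' ∈ l, Near N (4 * s.card + 1) γ γ') →
      ∀ l' ∈ (Ψ l).support, ∃ i ∈ s, ∀ v ∈ l', ∀ v' ∈ l',
        w i v = w i v' ∧ 0 < (F i v * (starRingEnd ℂ) (F i v')).re) :
    (p : Λ) ^ (∑ i ∈ s, a i) *
      ((d.C.relIndex (Subgroup.centralizer {d.g}) : Λ) * d.tr) = 0 := by
  obtain ⟨c, c0, cs, cD⟩ := hfp N hN0
  let Φ : ℕ → (Set (ℕ → ℤ) →₀ ℤ) →ₗ[ℤ] (List P →₀ Λ) := fun D =>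
    Finsupp.linearCombination ℤ (Phi d Ψ N D)
  have Φ1 : ∀ D A, Φ D (Finsupp.single A 1) = Phi d Ψ N D A := fun D A => by
    simp only [Φ, Finsupp.linearCombination_single, one_smul]
  have hsup : ∀ j, ∀ l ∈ (Φ j (c j)).support, ∃ A Γ, Cell N j (2 * j + 1) A ∧
      IsLoop d.g (N * (j + 1)) Γ ∧ amp d.T d.E (N * (j + 1)) (pat j A) Γ ≠ 0 ∧
      l ∈ (Ψ (lst j Γ)).support := by
    intro j l hl
    simp only [Φ, Finsupp.linearCombination_apply] at hl
    obtain ⟨A, hA, hl'⟩ := mem_biUnion.mp (Finsupp.support_sum hl)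
    obtain ⟨Γ, h2, h3, h4⟩ := int_supp d (by positivity) _ _ (Finsupp.support_smul hl')
    exact ⟨A, Γ, cs j A hA, h2, h3, h4⟩
  have hplen : ∀ D A, ∀ l ∈ (Phi d Ψ N D A).support, l.length = D + 1 := by
    intro D A l hl
    obtain ⟨Γ, h2, -, h4⟩ := int_supp d (by positivity) _ _ hl
    rw [hlen _ (lst_loop h2) l h4, lst_length]
  have hpow : ∀ D m r A, Cell N D m A →
      Φ D ((shm ^ r) (Finsupp.single A 1)) = (tm Λ T ^ r) (Phi d Ψ N D A) := by
    intro D m r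
    induction r with
    | zero => intro A _; simpa using Φ1 D A
    | succ r ih =>
      intro A hA
      rw [pow_succ, pow_succ, Module.End.mul_apply, Module.End.mul_apply,
        phi_sh hN0 hC hsh hA, ← ih _ hA.sh]
      simp only [shm, Finsupp.lmapDomain_apply, Finsupp.mapDomain_single]
  rw [← phi_pt hN0 hmass, ← Φ1, ← c0]
  refine cut T N hN0 hT hN hp hJ s a w F hw hwT hF (fun j => Φ j (c j)) ?_ ?_ ?_
  · intro j _ l hl
    obtain ⟨A, Γ, -, h2, -, h4⟩ := hsup j l hl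
    rw [hlen _ (lst_loop h2) l h4, lst_length]
  · intro j _
    have e1 : bd P Λ (Φ (j + 1) (c (j + 1))) = Φ j (cbd (j + 1) (c (j + 1))) := by
      refine lin_eq ((bd P Λ).toAddMonoidHom.comp (Φ (j + 1)).toAddMonoidHom)
        ((Φ j).toAddMonoidHom.comp (cbd (j + 1)).toAddMonoidHom) fun A hA => ?_
      simp only [AddMonoidHom.comp_apply, LinearMap.toAddMonoidHom_coe, Φ1]
      rw [bd_eq (n := j + 1 + 1) (by omega) _ (hplen _ _)]
      simp only [cbd, LinearMap.sum_apply, LinearMap.smul_apply, map_sum, map_zsmul,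
        Finsupp.lmapDomain_apply, Finsupp.mapDomain_single, Φ1]
      refine sum_congr rfl fun i hi => ?_
      rw [phi_face hN0 hC hdel (cs _ A hA) (by have := mem_range.mp hi; omega),
        ← Int.cast_smul_eq_zsmul Λ]
      simp
    have e2 : Φ j (dd shm N (j + 1) (c j)) = dd (tm Λ T) N (j + 1) (Φ j (c j)) := by
      refine lin_eq ((Φ j).toAddMonoidHom.comp (dd shm N (j + 1)).toAddMonoidHom)
        ((dd (tm Λ T) N (j + 1)).toAddMonoidHom.comp (Φ j).toAddMonoidHom) fun A hA => ?_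
      simp only [AddMonoidHom.comp_apply, LinearMap.toAddMonoidHom_coe, Φ1]
      unfold dd
      split_ifs
      · simp only [LinearMap.sum_apply, map_sum]
        exact sum_congr rfl fun r _ => hpow _ _ r A (cs _ A hA)
      · have := hpow _ _ 1 A (cs _ A hA)
        rw [pow_one, pow_one] at this
        simp only [LinearMap.sub_apply, map_sub, Module.End.one_apply, this, Φ1]
    rw [e1, cD, map_zsmul, e2, ← Int.cast_smul_eq_zsmul Λ]
    simp
  · intro j hj l hl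
    obtain ⟨A, Γ, h2, h3, h4, h5⟩ := hsup j l hl
    have hc : ((range (N * (j + 1))).filter fun i : ℕ => pat j A i).card ≤ 4 * s.card + 1 :=
      (pat_card h2).trans (by omega)
    obtain ⟨h6, ℓ, h7⟩ := amp_len d.T d.E S h1 hJ hfil d.g _ _ (by positivity) _ (pat_per h2) hc Γ
      h3 h4
    refine hgood _ ?_ (lst_good h3 h7) (lst_near h6 hc) l h5
    intro h0
    have := lst_length j Γ
    rw [h0] at this
    simp at this

open Pool.Agent.Lib.MP_7903c7_al.RF.Abc2 in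
theorem abc_cover (d : Dat G B Λ) (S : Finset G) (h1 : (1 : G) ∈ S) {p J : ℕ} (hp : p.Prime)
    (hJ : (p : Λ) ^ J = 0)
    (hfil : ∀ h j, h ∉ (S : Set G) ^ (2 * j + 1) → ∃ y, d.E h = p ^ (j + 1) • y)
    (N L : ℕ) (hN0 : 0 < N) (hN : (N : Λ) = 0) {ι : Type}
    (s : Finset ι) (a : ι → ℕ) (w : ι → (ℤ → G) → ℤ) (F : ι → (ℤ → G) → ℂ)
    (hL : 2 * J + (4 * s.card + 1) ≤ L)
    (hw : ∀ i ∈ s, ∀ γ, ¬ (p : ℤ) ^ (a i + 1) ∣ w i γ)
    (hE : ∀ i ∈ s, Equi d.g d.C N (w i) (F i))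
    (hcov : ∀ γ, Good d.g S N L γ → ∃ i ∈ s, Fine d.g S N L (4 * s.card + 1) (w i) (F i) γ) :
    (p : Λ) ^ (∑ i ∈ s, a i) *
      ((d.C.relIndex (Subgroup.centralizer {d.g}) : Λ) * d.tr) = 0 := by
  have key : ∀ i ∈ s, ∀ v : Quotient (lpS d.g d.C N),
      w i (rot d.g d.C N v).out.1 = w i v.out.1 ∧
        F i (rot d.g d.C N v).out.1 = ee ((w i v.out.1 : ℝ) / N) * F i v.out.1 := by
    intro i hi v
    induction v using Quotient.inductionOn with
    | h x =>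
      have e1 := out_eq (hE i hi) x
      have e2 := out_eq (hE i hi) ⟨fun t => x.1 (t - 1), loop_sub x.2 1⟩
      have e3 := (hE i hi x.1 x.2).2
      rw [e1.1, e1.2]
      exact ⟨e2.1.trans e3.1, e2.2.trans e3.2⟩
  refine abc d S h1 hp hJ hfil N hN0 hN (rot d.g d.C N) (rot_period d.gC) s a
    (fun i v => w i v.out.1) (fun i v => F i v.out.1) (fun i hi v => hw i hi _)
    (fun i hi v => (key i hi v).1) (fun i hi v => (key i hi v).2)
    (fun l => Finsupp.single (l.map (cl d.g d.C hN0)) 1) (fun l hl c hc => ?_) (fun l hl => ?_)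
    (fun l _ j _ _ => ?_) (fun l _ l' hl' => ?_) (fun γ _ => ?_) (fun l hne hG hn l' hl' => ?_)
  · rw [List.map_map]
    refine congrArg (Finsupp.single · (1 : Λ)) (List.map_congr_left fun γ hγ => ?_)
    rw [Function.comp_apply, cl_eq hN0 (hl γ hγ), cl_eq hN0 (loop_mul (hl γ hγ) (d.comm c hc))]
    symm
    exact Quotient.sound ⟨c, hc, fun _ => rfl⟩
  · rw [Finsupp.mapDomain_single, List.map_map, List.map_map]
    refine congrArg (Finsupp.single · (1 : Λ)) (List.map_congr_left fun γ hγ => ?_)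
    rw [Function.comp_apply, Function.comp_apply, cl_eq hN0 (hl γ hγ),
      cl_eq hN0 (loop_sub (hl γ hγ) 1)]
    rfl
  · rw [Finsupp.mapDomain_single, List.eraseIdx_map]
  · rw [Finset.mem_singleton.1 (Finsupp.support_single_subset hl'), List.length_map]
  · simp [eps]
  · rw [Finset.mem_singleton.1 (Finsupp.support_single_subset hl')]
    have good : ∀ γ ∈ l, Good d.g S N L γ := fun γ hγ => by
      obtain ⟨k1, ℓ, k2, k3, k4⟩ := hG γ hγ
      exact ⟨k1, ℓ, k2, k3, k4.trans hL⟩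
    obtain ⟨γ0, h0⟩ := List.exists_mem_of_ne_nil l hne
    obtain ⟨i, hi, hf⟩ := hcov γ0 (good γ0 h0)
    refine ⟨i, hi, fun v hv v' hv' => ?_⟩
    obtain ⟨γ, hγ, rfl⟩ := List.mem_map.1 hv
    obtain ⟨γ', hγ', rfl⟩ := List.mem_map.1 hv'
    have e1 := out_eq (hE i hi) ⟨γ, (good γ hγ).1⟩
    have e2 := out_eq (hE i hi) ⟨γ', (good γ' hγ').1⟩
    rw [cl_eq hN0 (good γ hγ).1, cl_eq hN0 (good γ' hγ').1, e1.1, e1.2, e2.1, e2.2]
    exact hf γ γ' (good γ hγ) (good γ' hγ') (hn γ0 h0 γ hγ) (hn γ0 h0 γ' hγ')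

end Pool.Agent.Lib.MP_7903c7_al.NC
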