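import Pool.Agent.Lib.MP_7903c7_al.RF.Abc2

set_option autoImplicit false

/-!
Anchors of loops, finiteness of the support of the amplitude, loops with one step, and the
length of loops with nonzero amplitude.
-/

namespace Pool.Agent.Lib.MP_7903c7_al.NC

open Finset Pool.Agent.Lib.MP_7903c7_al.RF
open scoped Classical Pointwise

section amp

variable {G B Λ : Type} [Group G] [Ring B] [CommRing Λ]

/-- A convolution idempotent modulo `q` with coefficients in a ring with a trace, an element and a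
finite index subgroup of its centraliser. -/
structure Dat (G B Λ : Type) [Group G] [Ring B] [CommRing Λ] where
  g : G
  C : Subgroup G
  E : G → B
  T : B →+ Λ
  U : Finset G
  q : ℕ
  gC : g ∈ C
  comm : ∀ c ∈ C, c * g = g * c
  idx : C.relIndex (Subgroup.centralizer {g}) ≠ 0
  supp : ∀ h, h ∉ U → E h = 0
  idem : ∀ h, ∃ y, ∑ u ∈ U, E u * E (u⁻¹ * h) = E h + q • y
  cyc : ∀ a b, T (a * b) = T (b * a)
  hq : (q : Λ) = 0

/-- The kernel of the idempotent or of the identity. -/
noncomputable def kap (E : G → B) (b : Prop) (h : G) : B :=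
  if b then E h else if h = 1 then 1 else 0

/-- The amplitude of a loop. -/
noncomputable def amp (T : B →+ Λ) (E : G → B) (M : ℕ) (b : ℤ → Prop) (x : ℤ → G) : Λ :=
  T ((List.range M).map fun i : ℕ => kap E (b i) ((x i)⁻¹ * x (i + 1))).prod

/-- The sum over the classes of loops, weighted by the amplitudes. -/
noncomputable def Dat.int (d : Dat G B Λ) {A : Type} [AddCommGroup A] [Module Λ A] (M : ℕ)
    (b : ℤ → Prop) (f : (ℤ → G) → A) : A :=
  ∑ᶠ q : Quotient (lpS d.g d.C M), amp d.T d.E M b q.out.1 • f q.out.1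

/-- The trace of the idempotent on the class of `g`. -/
noncomputable def Dat.tr (d : Dat G B Λ) : Λ :=
  ∑ h ∈ d.U.filter fun h => IsConj h d.g, d.T (d.E h)

end amp

namespace Anch

open Pool.Agent.Lib.MP_7903c7_al.RF.Anch

variable {G B Λ : Type} [Group G] [Ring B] [CommRing Λ]

theorem fac_ne {T : B →+ Λ} {E : G → B} {M : ℕ} {b : ℤ → Prop} {x : ℤ → G}
    (h : amp T E M b x ≠ 0) (i : ℕ) (hi : i < M) : kap E (b i) ((x i)⁻¹ * x (i + 1)) ≠ 0 := by
  intro h0
  apply h
  unfold amp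
  rw [List.prod_eq_zero (List.mem_map.2 ⟨i, List.mem_range.2 hi, h0⟩), map_zero]

theorem prod_smul {M : ℕ} (p : ℕ) (w : ℕ → ℕ) (A : ℕ → B) :
    ((List.range M).map fun i => p ^ w i • A i).prod =
      p ^ (∑ i ∈ range M, w i) • ((List.range M).map A).prod := by
  induction M with
  | zero => simp
  | succ M ih =>
    simp only [List.range_succ, List.map_append, List.prod_append, ih, sum_range_succ, pow_add,
      List.map_cons, List.map_nil, List.prod_cons, List.prod_nil, mul_one, smul_mul_smul_comm]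

/-- The step of a class of loops with one step. -/
noncomputable def st (d : Dat G B Λ) (q : Quotient (lpS d.g d.C 1)) : G :=
  (q.out.1 0)⁻¹ * d.g * q.out.1 0

theorem st_mk (d : Dat G B Λ) (x : {x : ℤ → G // IsLoop d.g 1 x}) :
    st d (Quotient.mk _ x) = (x.1 0)⁻¹ * d.g * x.1 0 := by
  obtain ⟨c, hc, e⟩ := Quotient.mk_out (s := lpS d.g d.C 1) x
  rw [st, e 0]
  generalize (Quotient.mk (lpS d.g d.C 1) x).out.1 0 = y
  calc y⁻¹ * d.g * y = y⁻¹ * c⁻¹ * (c * d.g) * y := by group
    _ = _ := by rw [d.comm c hc]; group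

theorem card_fib (d : Dat G B Λ) (y : G) :
    Nat.card {q : Quotient (lpS d.g d.C 1) // st d q = y⁻¹ * d.g * y} =
      d.C.relIndex (Subgroup.centralizer {d.g}) := by
  set Z := Subgroup.centralizer ({d.g} : Set G) with hZ
  have hz : ∀ z : Z, (z : G) * d.g = d.g * z := fun z =>
    Subgroup.mem_centralizer_singleton_iff.1 z.2
  symm
  refine Nat.card_congr (Equiv.ofBijective (fun a : Z ⧸ d.C.subgroupOf Z =>
    (⟨Quotient.mk _ (Anch.lp d.g (((a.out : Z) : G)⁻¹ * y)), ?_⟩ :
      {q : Quotient (lpS d.g d.C 1) // st d q = y⁻¹ * d.g * y})) ⟨?_, ?_⟩)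
  · rw [st_mk]
    simp only [Anch.lp, zpow_zero, one_mul]
    calc _ = y⁻¹ * (((a.out : Z) : G) * d.g) * (((a.out : Z) : G)⁻¹ * y) := by group
      _ = _ := by rw [hz]; group
  · intro a a' e
    obtain ⟨c, hc, e'⟩ := Quotient.exact (congrArg Subtype.val e)
    have e0 := e' 0
    simp only [Anch.lp, zpow_zero, one_mul] at e0
    rw [← a.out_eq', ← a'.out_eq']
    refine QuotientGroup.eq.2 ?_
    show ((a.out : Z) : G)⁻¹ * ((a'.out : Z) : G) ∈ d.C
    have : ((a.out : Z) : G)⁻¹ * ((a'.out : Z) : G) = c⁻¹ := by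
      calc _ = ((a.out : Z) : G)⁻¹ * y * (((a'.out : Z) : G)⁻¹ * y)⁻¹ := by group
        _ = _ := by rw [e0]; group
    rw [this]
    exact d.C.inv_mem hc
  · rintro ⟨q, hq⟩
    have hm : y * (q.out.1 0)⁻¹ ∈ Z := by
      rw [hZ, Subgroup.mem_centralizer_singleton_iff]
      calc y * (q.out.1 0)⁻¹ * d.g = y * st d q * (q.out.1 0)⁻¹ := by rw [st]; group
        _ = _ := by rw [hq]; group
    obtain ⟨c, hc⟩ := QuotientGroup.mk_out_eq_mul (d.C.subgroupOf Z) ⟨_, hm⟩
    refine ⟨QuotientGroup.mk ⟨_, hm⟩, Subtype.ext (Eq.trans (Quotient.sound ?_) q.out_eq)⟩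
    refine ⟨((c : Z) : G), c.2, congrFun (loop_ext one_pos q.out.2
      (loop_mul (hz c) (Anch.lp d.g _).2) fun i hi => ?_)⟩
    obtain rfl : i = 0 := by omega
    rw [hc]
    simp [Anch.lp, mul_assoc]

end Anch

section C
variable {G B Λ : Type} [Group G] [Ring B] [CommRing Λ]

theorem int_finite (d : Dat G B Λ) (M : ℕ) (hM : 0 < M) (b : ℤ → Prop) :
    {q : Quotient (lpS d.g d.C M) | amp d.T d.E M b q.out.1 ≠ 0}.Finite := by
  let U : Finset G := insert 1 d.U
  obtain ⟨Y, hY, -⟩ := anchors d.g d.C d.comm d.idx (U ^ M)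
  have hF : {x : {x : ℤ → G // IsLoop d.g M x} |
      ∀ i : ℕ, i < M → x.1 i ∈ (Y : Set G) * (U : Set G) ^ i}.Finite := by
    refine Set.Finite.of_finite_image (f := fun x (i : Fin M) => x.1 (i : ℕ)) ?_ ?_
    · refine (Set.Finite.pi' (t := fun i : Fin M => (Y : Set G) * (U : Set G) ^ (i : ℕ))
        fun i => ?_).subset ?_
      · rw [← coe_pow, ← coe_mul]
        exact finite_toSet _
      · rintro _ ⟨x, hx, rfl⟩ i
        exact hx i i.2
    · intro x _ y _ e
      exact Subtype.ext (Anch.loop_ext hM x.2 y.2 fun i hi => congrFun e ⟨i, hi⟩)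
  refine (hF.image (Quotient.mk _)).subset fun q hq => ?_
  have hs : ∀ i : ℕ, i < M → (q.out.1 i)⁻¹ * q.out.1 (i + 1) ∈ (U : Set G) := fun i hi => by
    have := Anch.fac_ne hq i hi
    unfold kap at this
    by_contra hn
    simp only [U, coe_insert, Set.mem_insert_iff, mem_coe, not_or] at hn
    rw [d.supp _ hn.2, if_neg hn.1, ite_self] at this
    exact this rfl
  have h0 : (q.out.1 0)⁻¹ * d.g * q.out.1 0 ∈ U ^ M := by
    have h1 := Anch.path_mem hs M le_rfl
    have h2 := q.out.2 0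
    rw [zero_add] at h2
    rw [h2, ← mul_assoc, ← coe_pow] at h1
    exact h1
  obtain ⟨c, hc, z, hz, e⟩ := hY _ h0
  refine ⟨⟨fun i => c⁻¹ * q.out.1 i, Anch.loop_mul (d.comm _ (d.C.inv_mem hc)) q.out.2⟩,
    fun i hi => ⟨z, hz, _, Anch.path_mem hs i hi.le, ?_⟩, ?_⟩
  · show z * ((q.out.1 0)⁻¹ * q.out.1 i) = c⁻¹ * q.out.1 i
    rw [e]
    group
  · refine Eq.trans (Quotient.sound ?_) q.out_eq
    exact ⟨c, hc, fun i => (mul_inv_cancel_left _ _).symm⟩

theorem int_one (d : Dat G B Λ) :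
    d.int 1 (fun _ => True) (fun _ => (1 : Λ)) =
      (d.C.relIndex (Subgroup.centralizer {d.g}) : Λ) * d.tr := by
  have ha : ∀ q : Quotient (lpS d.g d.C 1),
      amp d.T d.E 1 (fun _ => True) q.out.1 • (1 : Λ) = d.T (d.E (Anch.st d q)) := fun q => by
    have h2 := q.out.2 0
    simp only [Nat.cast_one, zero_add] at h2
    simp [amp, kap, Anch.st, h2, mul_assoc]
  have hfin : ∀ y : G, {q | Anch.st d q = y⁻¹ * d.g * y}.Finite := fun y =>
    Nat.finite_of_card_ne_zero (by
      have := Anch.card_fib d y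
      exact this ▸ d.idx)
  have hfin' : ∀ h : G, {q | Anch.st d q = h}.Finite := fun h => by
    by_cases he : ∃ q, Anch.st d q = h
    · obtain ⟨q, rfl⟩ := he
      exact hfin _
    · exact Set.finite_empty.subset fun q hq => he ⟨q, hq⟩
  have hU : {q | Anch.st d q ∈ d.U}.Finite :=
    (d.U.finite_toSet.biUnion fun h _ => hfin' h).subset fun q hq =>
      Set.mem_biUnion (x := Anch.st d q) hq rfl
  unfold Dat.int Dat.tr
  simp only [ha]
  rw [finsum_eq_sum_of_support_subset (s := hU.toFinset), ← sum_fiberwise_of_maps_to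
    (t := d.U.filter fun h => IsConj h d.g) (g := Anch.st d), mul_sum]
  · refine sum_congr rfl fun h hh => ?_
    obtain ⟨hh1, hh2⟩ := mem_filter.1 hh
    obtain ⟨y, hy⟩ := isConj_iff.1 hh2
    have e : h = y⁻¹ * d.g * y := by rw [← hy]; group
    rw [sum_congr rfl (g := fun _ => d.T (d.E h)) fun q hq => by
      rw [(mem_filter.1 hq).2], sum_const, nsmul_eq_mul, ← Anch.card_fib d y, ← e]
    congr 2
    rw [← Nat.card_eq_finsetCard]
    refine Nat.card_congr (Equiv.subtypeEquivRight fun q => ?_)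
    simp only [mem_filter, Set.Finite.mem_toFinset, Set.mem_ofPred_eq]
    exact ⟨fun h => h.2, fun h => ⟨h ▸ hh1, h⟩⟩
  · intro q hq
    refine mem_filter.2 ⟨by simpa using hq, isConj_iff.2 ⟨q.out.1 0, ?_⟩⟩
    rw [Anch.st]
    group
  · intro q hq
    by_contra hn
    apply hq
    show d.T (d.E (Anch.st d q)) = 0
    rw [d.supp _ (by simpa using hn), map_zero]

theorem amp_len (T : B →+ Λ) (E : G → B) (S : Finset G) (h1 : (1 : G) ∈ S) {p J : ℕ}
    (hJ : (p : Λ) ^ J = 0)
    (hfil : ∀ h j, h ∉ (S : Set G) ^ (2 * j + 1) → ∃ y, E h = p ^ (j + 1) • y)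
    (g : G) (M m : ℕ) (hM : 0 < M) (b : ℤ → Prop) (hb : ∀ i, b (i + M) ↔ b i)
    (hm : ((range M).filter fun i : ℕ => b i).card ≤ m) (x : ℤ → G) (hx : IsLoop g M x)
    (hne : amp T E M b x ≠ 0) :
    (∀ s, ¬ b s → x (s + 1) = x s) ∧ ∃ ℓ, Len S M (2 * J + m) x ℓ := by
  have hA : ∀ s, ¬ b s → (x s)⁻¹ * x (s + 1) = 1 := by
    refine Anch.red hM _ (fun t => by rw [hb, Anch.step_per hx]) fun i hi hn => ?_
    have := Anch.fac_ne hne i hi
    unfold kap at this
    by_contra h0
    rw [if_neg hn, if_neg h0] at this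
    exact this rfl
  refine ⟨fun s hs => (inv_mul_eq_one.1 (hA s hs)).symm, ?_⟩
  have hv : ∀ h : G, ∃ v : ℕ, (v < J → h ∈ (S : Set G) ^ (2 * v + 1)) ∧
      ∃ A : B, E h = p ^ v • A := fun h => by
    have he : ∃ v, J ≤ v ∨ h ∈ (S : Set G) ^ (2 * v + 1) := ⟨J, Or.inl le_rfl⟩
    refine ⟨Nat.find he, fun hlt => (Nat.find_spec he).resolve_left (by omega), ?_⟩
    rcases hf : Nat.find he with _ | j
    · exact ⟨E h, by simp⟩
    · have := Nat.find_min he (m := j) (by omega)
      exact hfil h j fun hh => this (Or.inr hh)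
  choose v hv A hA' using hv
  let w : ℤ → ℕ := fun t => if b t then v ((x t)⁻¹ * x (t + 1)) else 0
  have hw : ∑ i ∈ range M, w i < J := by
    by_contra hn
    apply hne
    obtain ⟨k, hk⟩ := Nat.exists_eq_add_of_le (not_lt.1 hn)
    have e : (fun i : ℕ => kap E (b i) ((x i)⁻¹ * x (i + 1))) = fun i : ℕ => p ^ w i •
        (if b i then A ((x i)⁻¹ * x (i + 1)) else 1) := by
      funext i
      unfold kap
      by_cases hi : b i
      · simp only [w, if_pos hi]
        exact hA' _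
      · simp [w, hi, hA i hi]
    unfold amp
    rw [e, Anch.prod_smul p (fun i : ℕ => w i), hk, map_nsmul, nsmul_eq_mul, Nat.cast_pow,
      pow_add, hJ, zero_mul, zero_mul]
  refine ⟨fun t => if b t then 2 * w t + 1 else 0, fun t => ?_, ?_, ?_⟩
  · simp only [w, hb, Anch.step_per hx]
  · refine Anch.red hM _ (fun t => by simp only [w, hb, Anch.step_per hx]) fun i hi => ?_
    by_cases hbi : b i
    · have h2 : w i ≤ ∑ i ∈ range M, w i :=
        single_le_sum (f := fun i : ℕ => w i) (fun _ _ => Nat.zero_le _) (mem_range.2 hi)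
      have h3 : w i = v ((x i)⁻¹ * x (i + 1)) := if_pos hbi
      simp only [if_pos hbi, h3]
      exact hv _ (by omega)
    · simp [hbi, hA i hbi]
  · have : ∑ t ∈ range M, (if b t then 2 * w t + 1 else 0) =
        2 * ∑ i ∈ range M, w i + ((range M).filter fun i : ℕ => b i).card := by
      rw [card_filter, mul_sum, ← sum_add_distrib]
      refine sum_congr rfl fun i _ => ?_
      by_cases hi : b i <;> simp [w, hi]
    show ∑ t ∈ range M, (if b t then 2 * w t + 1 else 0) ≤ _
    omega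

end C

end Pool.Agent.Lib.MP_7903c7_al.NC
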