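import Pool.Agent.Lib.MP_7903c7_al.NC.Anch

set_option autoImplicit false

namespace Pool.Agent.Lib.MP_7903c7_al.NC

open Finset Pool.Agent.Lib.MP_7903c7_al.RF
open scoped Classical Pointwise

variable {G B Λ : Type} [Group G] [Ring B] [CommRing Λ]

namespace Contr

open Pool.Agent.Lib.MP_7903c7_al.RF.Contr

theorem amp_mul (T : B →+ Λ) (E : G → B) (M : ℕ) (b : ℤ → Prop) (c : G) (x : ℤ → G) :
    amp T E M b (fun i => c * x i) = amp T E M b x := by
  simp only [amp, mul_inv_rev, mul_assoc, inv_mul_cancel_left]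

/-- The contraction formula for one reparametrisation. -/
def Pr (d : Dat G B Λ) (A : Type) [AddCommGroup A] [Module Λ A] (M M' : ℕ) (ι : ℤ → ℤ) : Prop :=
  ∀ b : ℤ → Prop, (∀ i, b (i + M) ↔ b i) → ∀ f : (ℤ → G) → A,
    (∀ x, IsLoop d.g M' x → ∀ c ∈ d.C, f (fun i => c * x i) = f x) →
    d.int M b (fun x => f (x ∘ ι)) = d.int M' (psh ι b) f

variable {d : Dat G B Λ} {A : Type} [AddCommGroup A] [Module Λ A]

theorem Pr.comp {M M1 M' : ℕ} {ι κ : ℤ → ℤ} (h1 : Pr d A M M1 ι) (h2 : Pr d A M1 M' κ)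
    (hι : StrictMono ι) (hp : ∀ i, ι (i + M1) = ι i + M) (hk : ∀ i, κ (i + M') = κ i + M1) :
    Pr d A M M' (ι ∘ κ) := fun b hb f hf => by
  rw [← psh_comp hι, ← h2 _ (psh_per hp hb) f hf]
  exact h1 b hb (fun y => f (y ∘ κ)) fun x hx c hc => hf _ (loop_comp hk hx) c hc

theorem pr_of {M M' : ℕ} (hM : 0 < M) {ι : ℤ → ℤ} (hp : ∀ i, ι (i + M') = ι i + M)
    (h : ∀ b : ℤ → Prop, (∀ i, b (i + M) ↔ b i) → ∀ y, IsLoop d.g M' y →
      ∃ (Z : Type) (σ : Z → {x : ℤ → G // IsLoop d.g M x}), Function.Injective σ ∧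
        (∀ x, x ∈ Set.range σ ↔ x.1 ∘ ι = y) ∧
        amp d.T d.E M' (psh ι b) y = ∑ᶠ z, amp d.T d.E M b (σ z).1) : Pr d A M M' ι := by
  intro b hb f hf
  let π : Quotient (lpS d.g d.C M) → Quotient (lpS d.g d.C M') :=
    Quotient.map (fun x => ⟨x.1 ∘ ι, loop_comp hp x.2⟩) fun x y ⟨c, hc, e⟩ =>
      ⟨c, hc, fun i => e (ι i)⟩
  have hfin : (Function.support fun q : Quotient (lpS d.g d.C M) =>
    amp d.T d.E M b q.out.1).Finite := int_finite d M hM b
  have out : ∀ (N : ℕ) (x : {x : ℤ → G // IsLoop d.g N x}), ∃ c ∈ d.C,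
      (Quotient.mk (lpS d.g d.C N) x).out.1 = fun i => c * x.1 i := fun N x => by
    obtain ⟨c, hc, e⟩ := (lpS d.g d.C N).symm (Quotient.mk_out (s := lpS d.g d.C N) x)
    exact ⟨c, hc, funext e⟩
  have key : ∀ q', amp d.T d.E M' (psh ι b) q'.out.1 =
      ∑ q ∈ hfin.toFinset with π q = q', amp d.T d.E M b q.out.1 := fun q' => by
    obtain ⟨Z, σ, h1, h2, h3⟩ := h b hb _ q'.out.2
    rw [h3, ← finsum_mem_univ]
    refine (finsum_mem_eq_of_bijOn (t := {q | π q = q'}) (g := fun q => amp d.T d.E M b q.out.1)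
      (fun z => Quotient.mk _ (σ z))
      ⟨fun z _ => ?_, fun z _ z' _ e => h1 ?_, fun q hq => ?_⟩ fun z _ => ?_).trans
      (finsum_mem_eq_sum_of_inter_support_eq _ (by ext q; simp [and_comm]))
    · exact (congrArg (Quotient.mk _) (Subtype.ext ((h2 _).1 ⟨z, rfl⟩))).trans q'.out_eq
    · obtain ⟨c, -, e⟩ := Quotient.exact e
      have e0 := e (ι 0)
      rw [show (σ z').1 (ι 0) = (σ z).1 (ι 0) from
        congrFun (((h2 _).1 ⟨z', rfl⟩).trans ((h2 _).1 ⟨z, rfl⟩).symm) 0, right_eq_mul] at e0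
      exact Subtype.ext (funext fun i => by rw [e, e0, one_mul])
    · induction q using Quotient.inductionOn with
      | h x =>
        obtain ⟨c, hc, e⟩ := Quotient.exact ((show π _ = q' from hq).trans q'.out_eq.symm)
        obtain ⟨z, hz⟩ := (h2 ⟨fun i => c * x.1 i, fun t => by
          simp only [x.2 t, ← mul_assoc, d.comm c hc]⟩).2 (funext fun i => (e i).symm)
        exact ⟨z, trivial,
          (Quotient.sound (s := lpS d.g d.C M) (a := x) ⟨c, hc, fun i => by rw [hz]⟩).symm⟩
    · obtain ⟨c, -, e⟩ := out M (σ z)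
      rw [e, amp_mul]
  unfold Dat.int
  rw [finsum_eq_sum_of_support_subset (s := hfin.toFinset) _ fun q hq => by
      simpa using left_ne_zero_of_smul hq,
    finsum_eq_sum_of_support_subset (s := hfin.toFinset.image π) _ fun q' hq => by
      have := left_ne_zero_of_smul hq
      rw [key] at this
      obtain ⟨q, h1, -⟩ := exists_ne_zero_of_sum_ne_zero this
      exact mem_coe.2 (mem_image.2 ⟨q, (mem_filter.1 h1).1, (mem_filter.1 h1).2⟩),
    ← sum_fiberwise_of_maps_to fun q hq => mem_image_of_mem π hq]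
  refine sum_congr rfl fun q' _ => ?_
  rw [key, sum_smul]
  refine sum_congr rfl fun q hq => ?_
  obtain ⟨c, hc, e⟩ := out M' ⟨q.out.1 ∘ ι, loop_comp hp q.out.2⟩
  have e' : π q = Quotient.mk _ ⟨q.out.1 ∘ ι, loop_comp hp q.out.2⟩ := by
    conv_lhs => rw [← q.out_eq]
    rfl
  rw [← (mem_filter.1 hq).2, e', e, hf _ (loop_comp hp q.out.2) c hc]

theorem amp_one (T : B →+ Λ) (hT : ∀ a b, T (a * b) = T (b * a)) (E : G → B) {g : G} {M : ℕ} {b : ℤ → Prop}
    (hb : ∀ i, b (i + M) ↔ b i) {x : ℤ → G} (hx : IsLoop g M x) :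
    amp T E M (fun i => b (i + 1)) (fun i => x (i + 1)) = amp T E M b x := by
  cases M with
  | zero => rfl
  | succ m =>
    unfold amp
    conv_rhs => rw [List.range_succ_eq_map, List.map_cons, List.prod_cons, hT]
    rw [List.range_succ, List.map_append, List.prod_append, List.map_map]
    have e1 := hb 0
    have e2 := hx 0
    have e3 := hx 1
    push_cast at e1 e2 e3
    rw [zero_add] at e1 e2
    rw [add_comm] at e3
    simp only [List.map_cons, List.map_nil, List.prod_cons, List.prod_nil, mul_one, propext e1,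
      e2, e3, mul_inv_rev, mul_assoc, inv_mul_cancel_left, Nat.cast_zero, zero_add]
    rfl

theorem amp_shift (T : B →+ Λ) (hT : ∀ a b, T (a * b) = T (b * a)) (E : G → B) {g : G} {M : ℕ} {b : ℤ → Prop}
    (hb : ∀ i, b (i + M) ↔ b i) {x : ℤ → G} (hx : IsLoop g M x) (k : ℤ) :
    amp T E M (fun i => b (i + k)) (fun i => x (i + k)) = amp T E M b x := by
  have st : ∀ k : ℤ, amp T E M (fun i => b (i + (k + 1))) (fun i => x (i + (k + 1))) =
      amp T E M (fun i => b (i + k)) (fun i => x (i + k)) := fun k => by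
    rw [← amp_one T hT E (g := g) (b := fun i => b (i + k)) (x := fun i => x (i + k))
      (fun i => by rw [add_right_comm, hb]) fun i => by
      simp only [add_right_comm i (M : ℤ) k, hx _]]
    simp only [add_assoc, add_comm k 1]
  induction k using Int.induction_on with
  | zero => simp only [add_zero]
  | succ n ih => rw [st, ih]
  | pred n ih => rw [← st, sub_add_cancel, ih]

theorem pr_shift {M : ℕ} (hM : 0 < M) (k : ℤ) : Pr d A M M (· + k) := by
  have hy' : ∀ y, IsLoop d.g M y → IsLoop d.g M fun i => y (i - k) := fun y hy t =>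
    (congrArg y (add_sub_right_comm _ _ _)).trans (hy _)
  refine pr_of hM (fun i => add_right_comm _ _ _) fun b hb y hy =>
    ⟨Unit, fun _ => ⟨fun i => y (i - k), hy' y hy⟩,
      fun _ _ _ => rfl, fun x => ⟨?_, ?_⟩, ?_⟩
  · rintro ⟨_, rfl⟩
    exact funext fun i => by simp
  · rintro rfl
    exact ⟨(), Subtype.ext (funext fun i => by simp)⟩
  · rw [finsum_unique, ← amp_shift d.T d.cyc d.E hb (hy' y hy) k]
    simp only [add_sub_cancel_right]
    congr 1
    funext i
    simp only [psh]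
    exact propext ⟨fun ⟨s, h1, h2, h3⟩ => by rwa [show i + k = s by omega],
      fun h => ⟨_, le_rfl, by omega, h⟩⟩

theorem kap_zero (b : Prop) {h : G} (hh : h ∉ insert 1 d.U) : kap d.E b h = 0 := by
  rw [mem_insert, not_or] at hh
  unfold kap
  rw [d.supp h hh.2, if_neg hh.1, ite_self]

theorem kap_conv (b b' : Prop) (h : G) (P : B) :
    d.T (P * ∑ w ∈ insert 1 d.U, kap d.E b w * kap d.E b' (w⁻¹ * h)) =
      d.T (P * kap d.E (b ∨ b') h) := by
  by_cases hb : b
  · by_cases hb' : b'
    · simp only [kap, hb, hb', if_true, true_or]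
      obtain ⟨y, hy⟩ := d.idem h
      rw [← sum_subset (subset_insert _ _) fun w _ hw => by rw [d.supp w hw, zero_mul], hy,
        mul_add, map_add, mul_smul_comm, map_nsmul, nsmul_eq_mul, d.hq, zero_mul, add_zero]
    · rw [sum_eq_single h]
      · simp [kap, hb, hb']
      · intro w _ hw
        simp [kap, hb', inv_mul_eq_one, hw]
      · intro hw
        rw [kap_zero b hw, zero_mul]
  · rw [sum_eq_single 1]
    · simp [kap, hb]
    · intro w _ hw
      simp [kap, hb, hw]
    · intro hw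
      exact absurd (mem_insert_self _ _) hw

theorem pr_skip (n : ℕ) : Pr d A (n + 1 + 1) (n + 1) fun i => i + i / (n + 1 : ℕ) := by
  have hm : 0 < n + 1 := n.succ_pos
  have sm : ∀ i : ℤ, 0 ≤ i → i < n + 1 + 1 → i / (n + 1 + 1 : ℕ) = 0 ∧ i % (n + 1 + 1 : ℕ) = i :=
    fun i h1 h2 => ⟨Int.ediv_eq_zero_of_lt h1 (by omega), Int.emod_eq_of_lt h1 (by omega)⟩
  have sm' : ∀ i : ℤ, 0 ≤ i → i < n + 1 → i / (n + 1 : ℕ) = 0 :=
    fun i h1 h2 => Int.ediv_eq_zero_of_lt h1 (by omega)
  refine pr_of (Nat.succ_pos _) (skip_per hm) fun b hb y hy => ?_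
  obtain ⟨σ, hσ⟩ : ∃ σ : G → {x : ℤ → G // IsLoop d.g (n + 1 + 1) x}, ∀ z t, (σ z).1 t =
      d.g ^ (t / (n + 1 + 1 : ℕ)) *
        if t % (n + 1 + 1 : ℕ) = n + 1 then y n * z else y (t % (n + 1 + 1 : ℕ)) :=
    ⟨fun z => ⟨_, fun t => by
      rw [Int.add_ediv_of_dvd_right (dvd_refl _), Int.ediv_self (by omega), Int.add_emod_right,
        add_comm, zpow_one_add, mul_assoc]⟩, fun _ _ => rfl⟩
  have s1 : ∀ z (i : ℤ), 0 ≤ i → i < n + 1 → (σ z).1 i = y i := fun z i h1 h2 => by
    rw [hσ, (sm i h1 (by omega)).1, (sm i h1 (by omega)).2, if_neg h2.ne, zpow_zero, one_mul]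
  have s2 : ∀ z, (σ z).1 (n + 1) = y n * z := fun z => by
    rw [hσ, (sm _ (by omega) (by omega)).1, (sm _ (by omega) (by omega)).2, if_pos rfl,
      zpow_zero, one_mul]
  have s3 : ∀ z, (σ z).1 (n + 1 + 1) = y (n + 1) := fun z => by
    have e1 := (σ z).2 0
    have e2 := hy 0
    push_cast at e1 e2
    rw [zero_add] at e1 e2
    rw [e1, e2, s1 z 0 le_rfl (by omega)]
  refine ⟨G, σ, fun z z' e => ?_, fun x => ⟨?_, fun e => ⟨(y n)⁻¹ * x.1 (n + 1), ?_⟩⟩, ?_⟩
  · exact mul_left_cancel ((s2 z).symm.trans (e ▸ s2 z'))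
  · rintro ⟨z, rfl⟩
    funext i
    have := Int.emod_lt_of_pos i (show (0 : ℤ) < (n + 1 : ℕ) by omega)
    rw [Function.comp_apply, hσ, (skip_div hm i).1, (skip_div hm i).2, if_neg (by omega),
      ← loop_eq hy]
  · refine Subtype.ext (funext fun t => ?_)
    have h1 := Int.emod_nonneg t (show ((n + 1 + 1 : ℕ) : ℤ) ≠ 0 by omega)
    have h2 := Int.emod_lt_of_pos t (show (0 : ℤ) < (n + 1 + 1 : ℕ) by omega)
    rw [hσ, loop_eq x.2 t]
    congr 1
    split_ifs with h
    · rw [mul_inv_cancel_left, h]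
    · rw [← e, Function.comp_apply, sm' _ h1 (by omega), add_zero]
  · have hl : ∀ z, amp d.T d.E (n + 1 + 1) b (σ z).1 = d.T
        (((List.range n).map fun i : ℕ => kap d.E (b i) ((y i)⁻¹ * y (i + 1))).prod *
          (kap d.E (b n) z * kap d.E (b (n + 1)) (z⁻¹ * ((y n)⁻¹ * y (n + 1))))) := fun z => by
      unfold amp
      rw [List.range_succ, List.range_succ, List.map_append, List.map_append, List.prod_append,
        List.prod_append, List.map_congr_left (g := fun i : ℕ =>
          kap d.E (b i) ((y i)⁻¹ * y (i + 1))) fun i hi => by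
          have := List.mem_range.1 hi
          rw [s1 z i (by omega) (by omega), s1 z (i + 1) (by omega) (by omega)]]
      simp only [List.map_cons, List.map_nil, List.prod_cons, List.prod_nil, mul_one,
        Nat.cast_add, Nat.cast_one, s1 z n (by omega) (by omega), s2, s3, inv_mul_cancel_left,
        mul_inv_rev, mul_assoc]
    simp only [hl]
    rw [finsum_eq_sum_of_support_subset (s := insert 1 d.U) _ fun z hz => by
        by_contra h
        exact hz (by simp only [kap_zero (b n) h, zero_mul, mul_zero, map_zero]),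
      ← map_sum, ← mul_sum, kap_conv]
    unfold amp
    rw [List.range_succ, List.map_append, List.prod_append, List.map_congr_left
      (g := fun i : ℕ => kap d.E (b i) ((y i)⁻¹ * y (i + 1))) fun i hi => ?_]
    · simp only [List.map_cons, List.map_nil, List.prod_cons, List.prod_nil, mul_one]
      congr 3
      simp only [psh]
      rw [sm' n (by omega) (by omega), show ((n : ℤ) + 1) / (n + 1 : ℕ) = 1 from
        Int.ediv_self (by omega)]
      refine propext ⟨fun ⟨s, h1, h2, h3⟩ => ?_, fun h => h.elim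
        (fun h => ⟨_, by omega, by omega, h⟩) fun h => ⟨_, by omega, by omega, h⟩⟩
      by_cases e : s = n
      · exact Or.inl (e ▸ h3)
      · exact Or.inr (by rwa [show (n : ℤ) + 1 = s by omega])
    · have := List.mem_range.1 hi
      congr 1
      simp only [psh]
      rw [sm' i (by omega) (by omega), sm' (i + 1) (by omega) (by omega)]
      exact propext ⟨fun ⟨s, h1, h2, h3⟩ => by rwa [show (i : ℤ) = s by omega],
        fun h => ⟨_, by omega, by omega, h⟩⟩

theorem pr_all (M' : ℕ) (hM' : 0 < M') (M : ℕ) : ∀ ι : ℤ → ℤ, StrictMono ι →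
    (∀ i, ι (i + M') = ι i + M) → Pr d A M M' ι := by
  induction M using Nat.strong_induction_on with
  | h M ih =>
    intro ι hι hp
    have up : ∀ (i : ℤ) (n : ℕ), ι i + n ≤ ι (i + n) := fun i n => by
      induction n with
      | zero => simp
      | succ n h =>
        have := hι (show i + n < i + (n + 1 : ℕ) by omega)
        omega
    by_cases hs : ∀ j, ι (j + 1) = ι j + 1
    · have e : ι = (· + ι 0) := funext fun i => by
        induction i using Int.induction_on with
        | zero => simp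
        | succ n h => rw [hs, h]; ring
        | pred n h =>
          have := hs (-n - 1)
          rw [sub_add_cancel, h] at this
          linarith
      have e' : M' = M := by
        have := hp 0
        rw [congrFun e (0 + M')] at this
        omega
      rw [e', e]
      exact pr_shift (e' ▸ hM') _
    · obtain ⟨j, hj⟩ := not_forall.1 hs
      have h1 := hι (lt_add_one j)
      obtain ⟨n, rfl⟩ : ∃ n, M = n + 1 + 1 := by
        have h2 := up (j + 1) (M' - 1)
        rw [show j + 1 + (M' - 1 : ℕ) = j + M' by omega, hp] at h2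
        exact ⟨M - 2, by omega⟩
      obtain ⟨k, hk⟩ : ∃ k, k = ι j - n := ⟨_, rfl⟩
      have mono : StrictMono fun i : ℤ => i + i / (n + 1 : ℕ) := fun a c h =>
        add_lt_add_of_lt_of_le h (Int.ediv_le_ediv (by omega) h.le)
      have e : ι = (· + k) ∘ (fun i : ℤ => i + i / (n + 1 : ℕ)) ∘
          fun i => ι i - k - (ι i - k) / (n + 1 + 1 : ℕ) := funext fun i => by
        have h2 := Int.emod_nonneg (ι i - k) (show ((n + 1 + 1 : ℕ) : ℤ) ≠ 0 by omega)
        have h3 := Int.emod_lt_of_pos (ι i - k) (show (0 : ℤ) < (n + 1 + 1 : ℕ) by omega)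
        have h4 := Int.emod_add_mul_ediv (ι i - k) (n + 1 + 1 : ℕ)
        have h5 : (ι i - k) % (n + 1 + 1 : ℕ) ≠ n + 1 := fun h => by
          have h6 := per_mul hp (-((ι i - k) / (n + 1 + 1 : ℕ))) i
          have h7 : ι (i + M' * -((ι i - k) / (n + 1 + 1 : ℕ))) = ι j + 1 := by linarith
          have h8 := hι.lt_iff_lt.1 (h7.symm ▸ lt_add_one (ι j))
          have h9 := hι.monotone (Int.add_one_le_of_lt h8)
          omega
        have h6 := ((Int.ediv_emod_unique (a := ι i - k - (ι i - k) / (n + 1 + 1 : ℕ))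
          (b := (n + 1 : ℕ)) (r := (ι i - k) % (n + 1 + 1 : ℕ))
          (q := (ι i - k) / (n + 1 + 1 : ℕ)) (by omega)).2
          ⟨by push_cast at h4 ⊢; linarith, h2, by omega⟩).1
        simp only [Function.comp_apply, h6]
        ring
      have hκ : ∀ i, ι (i + M') - k - (ι (i + M') - k) / (n + 1 + 1 : ℕ) =
          ι i - k - (ι i - k) / (n + 1 + 1 : ℕ) + (n + 1 : ℕ) := fun i => by
        rw [hp, add_sub_right_comm, Int.add_ediv_of_dvd_right (dvd_refl _),
          Int.ediv_self (by omega)]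
        push_cast
        ring
      rw [e]
      refine (pr_shift (Nat.succ_pos _) k).comp ((pr_skip n).comp
        (ih _ (Nat.lt_succ_self _) _ (fun a c h => mono.lt_iff_lt.1 ?_) hκ) mono
        (skip_per n.succ_pos) hκ) (fun a c h => add_lt_add_left h k) (fun i => add_right_comm _ _ _)
        fun i => ?_
      · have := hι h
        rw [congrFun e a, congrFun e c] at this
        exact lt_of_add_lt_add_right this
      · simp only [Function.comp_apply, hκ]
        exact skip_per n.succ_pos _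

end Contr

theorem int_contract (d : Dat G B Λ) {A : Type} [AddCommGroup A] [Module Λ A] (M M' : ℕ)
    (hM' : 0 < M') (ι : ℤ → ℤ) (hι : StrictMono ι) (hp : ∀ i, ι (i + M') = ι i + M)
    (b : ℤ → Prop) (hb : ∀ i, b (i + M) ↔ b i) (f : (ℤ → G) → A)
    (hf : ∀ x, IsLoop d.g M' x → ∀ c ∈ d.C, f (fun i => c * x i) = f x) :
    d.int M b (fun x => f (x ∘ ι)) =
      d.int M' (fun i => ∃ s, ι i ≤ s ∧ s < ι (i + 1) ∧ b s) f :=
  Contr.pr_all M' hM' M ι hι hp b hb f hf

end Pool.Agent.Lib.MP_7903c7_al.NC
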