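import Pool.Agent.Lib.MP_7903c7_al.NC.Abc
import Pool.Agent.Lib.MP_7903c7_al.PT.Main
import Pool.Agent.Lib.MP_7903c7_al.B.Fin

set_option autoImplicit false

/-!
The trace of an idempotent modulo `p ^ j` over a group ring with arbitrary coefficient ring.
-/

namespace Pool.Agent.Lib.MP_7903c7_al.NC

open Finset Polynomial Pool.Agent.Lib.MP_7903c7_al.RF Pool.Agent.Lib.MP_7903c7_al.PT
open scoped Classical Pointwise

/-- A cheap family of functions that covers all good loops, at an arbitrarily large scale. -/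
theorem cover {G : Type} [Group G] {p : ℕ} (hp : p.Prime) {g : G} (hg : orderOf g = 0)
    {S : Finset G} (h1 : (1 : G) ∈ S) (hS : ∀ s ∈ S, s⁻¹ ∈ S) (j : ℕ) :
    ∃ x : ℕ, j < x ∧ ∀ c : ℕ, 0 < c → ∃ n0 : ℕ, 0 < n0 ∧ c ∣ n0 ∧
      Sys p g S (40 * x * n0) (40 * x) (3 * x) (3 * x) Set.univ := by
  have hK : S.card ≤ 2 ^ S.card := Nat.lt_two_pow_self.le
  obtain ⟨R, Sg, T, b, gg, F, c0, L0, hR, hgg, hF, hT, hg', hb, H⟩ :=
    tower hp S.card (1 / 100) (by norm_num)
  obtain ⟨Q, hP, hV, H1⟩ := H G g S h1 hS hK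
  obtain ⟨c1, L1, H2⟩ :=
    sysMZ hp hg h1 hS hK R Sg T b gg hR hgg hT hg' (1 / 100) (by norm_num) hb Q hP hV
  obtain ⟨x, hx⟩ : ∃ x, x = c0 + c1 + L0 + L1 + j + 1 := ⟨_, rfl⟩
  obtain ⟨a1, H1⟩ := H1 (40 * x) (by omega)
  obtain ⟨a2, H2⟩ := H2 (40 * x) (by omega)
  refine ⟨x, by omega, fun c hc => ?_⟩
  have hn : a1 + a2 + 1 ≤ c * F * (a1 + a2 + 1) := Nat.le_mul_of_pos_left _ (Nat.mul_pos hc hF)
  obtain ⟨k1, e1, s1⟩ := H1 (c * F * (a1 + a2 + 1)) (by omega)
    ((dvd_mul_left F c).mul_right _)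
  obtain ⟨k2, e2, s2⟩ := H2 (c * F * (a1 + a2 + 1)) (by omega)
  have hk : k1 + k2 ≤ 2 * x + (c0 + c1) := by
    have : (k1 : ℝ) + k2 ≤ 2 * x + (c0 + c1) := by
      push_cast at e1 e2
      linarith
    exact_mod_cast this
  exact ⟨_, by omega, (dvd_mul_right c F).mul_right _,
    (s1.union s2).mono (by omega) (by omega) fun γ _ _ => (em _).symm⟩

variable {G B W : Type} [Group G] [Ring B] [CommRing W]

/-- All coefficients outside `U` vanish. -/
def In (U : Finset G) (a : MonoidAlgebra B G) : Prop := ∀ h, h ∉ U → a.coeff h = 0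

lemma In.conv {U : Finset G} {a : MonoidAlgebra B G} (ha : In U a) (b : MonoidAlgebra B G)
    (h : G) : (a * b).coeff h = ∑ u ∈ U, a.coeff u * b.coeff (u⁻¹ * h) := by
  rw [MonoidAlgebra.coeff_mul_apply_left]
  exact Finsupp.sum_of_support_subset _
    (fun u hu => by_contra fun h => Finsupp.mem_support_iff.1 hu (ha u h))
    (fun u r => r * b.coeff (u⁻¹ * h)) (by simp)

lemma In.mul {U V : Finset G} {a b : MonoidAlgebra B G} (ha : In U a) (hb : In V b) :
    In (U * V) (a * b) := by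
  intro h hh
  rw [ha.conv]
  refine Finset.sum_eq_zero fun u hu => ?_
  rw [hb _ fun h2 => hh (by simpa using Finset.mul_mem_mul hu h2), mul_zero]

lemma In.pow {S : Finset G} {a : MonoidAlgebra B G} (ha : In S a) (n : ℕ) :
    In (S ^ n) (a ^ n) := by
  induction n with
  | zero =>
    intro h hh
    rw [pow_zero, MonoidAlgebra.one_def, MonoidAlgebra.coeff_single, Finsupp.single_eq_of_ne]
    simpa using hh
  | succ n ih => rw [pow_succ, pow_succ]; exact ih.mul ha

lemma In.pev {S : Finset G} (h1 : (1 : G) ∈ S) {a : MonoidAlgebra B G} (ha : In S a)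
    {f : ℤ[X]} {n : ℕ} (hn : f.natDegree ≤ n) : In (S ^ n) (pev a f) := by
  intro h hh
  rw [pev_sum a (Nat.lt_succ_of_le hn), MonoidAlgebra.coeff_sum, Finsupp.finsetSum_apply]
  refine Finset.sum_eq_zero fun m hm => ?_
  rw [← zsmul_eq_mul]
  have := ha.pow m h fun h2 => hh (Finset.pow_subset_pow_right h1
    (Nat.lt_succ_iff.1 (Finset.mem_range.1 hm)) h2)
  rw [MonoidAlgebra.coeff_smul, Finsupp.smul_apply, this, smul_zero]

/-- The trace summed over a set of group elements. -/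
noncomputable def tr (T : B →+ W) (C : G → Prop) : MonoidAlgebra B G →+ W where
  toFun a := a.coeff.sum fun h r => if C h then T r else 0
  map_zero' := by simp
  map_add' a b := by
    rw [MonoidAlgebra.coeff_add, Finsupp.sum_add_index']
    · intro h; simp
    · intro h r r'
      split_ifs <;> simp

omit [Group G] in
lemma tr_single (T : B →+ W) (C : G → Prop) (h : G) (r : B) :
    tr T C (MonoidAlgebra.single h r) = if C h then T r else 0 := by
  show (MonoidAlgebra.single h r).coeff.sum (fun h r => if C h then T r else (0 : W)) = _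
  rw [MonoidAlgebra.coeff_single, Finsupp.sum_single_index]
  simp

omit [Group G] in
lemma tr_eq (T : B →+ W) (C : G → Prop) {U : Finset G} {a : MonoidAlgebra B G} (ha : In U a) :
    tr T C a = ∑ h ∈ U.filter C, T (a.coeff h) := by
  rw [Finset.sum_filter]
  exact Finsupp.sum_of_support_subset _
    (fun u hu => by_contra fun h => Finsupp.mem_support_iff.1 hu (ha u h))
    (fun w r => if C w then T r else 0) (by simp)

lemma tr_mul_comm {T : B →+ W} (hT : ∀ a b, T (a * b) = T (b * a)) {C : G → Prop}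
    (hC : ∀ a b, C (a * b) → C (b * a)) (a b : MonoidAlgebra B G) :
    tr T C (a * b) = tr T C (b * a) := by
  induction a using MonoidAlgebra.induction_linear with
  | zero => simp
  | add a a' h1 h2 => rw [add_mul, mul_add, map_add, map_add, h1, h2]
  | single h r =>
    induction b using MonoidAlgebra.induction_linear with
    | zero => simp
    | add b b' h1 h2 => rw [add_mul, mul_add, map_add, map_add, h1, h2]
    | single h' r' =>
      rw [MonoidAlgebra.single_mul_single, MonoidAlgebra.single_mul_single, tr_single,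
        tr_single, hT r r']
      by_cases H : C (h * h')
      · rw [if_pos H, if_pos (hC _ _ H)]
      · rw [if_neg H, if_neg (fun H' => H (hC _ _ H'))]

/-- Elements of infinite order. -/
theorem infinite_order {T : B →+ W} (hT : ∀ a b, T (a * b) = T (b * a)) {p : ℕ} (hp : p.Prime)
    (htor : ∀ w : W, p * w = 0 → w = 0) {a d : MonoidAlgebra B G} {j : ℕ}
    (ha : a * a - a = p ^ j • d) {g : G} (hg : orderOf g = 0) :
    (p : W) ^ j ∣ tr T (fun h => IsConj h g) a := by
  rcases j with _ | i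
  · simp
  let S0 : Finset G := insert 1 a.coeff.support
  have h1 : (1 : G) ∈ S0 ∪ S0⁻¹ := mem_union_left _ (mem_insert_self _ _)
  have hS : ∀ u ∈ S0 ∪ S0⁻¹, u⁻¹ ∈ S0 ∪ S0⁻¹ := fun u hu => by
    rcases mem_union.mp hu with h | h
    · exact mem_union_right _ (inv_mem_inv h)
    · exact mem_union_left _ (by simpa using inv_mem_inv h)
  have haS : In (S0 ∪ S0⁻¹) a := fun h hh =>
    Finsupp.notMem_support_iff.1 fun hu => hh (mem_union_left _ (mem_insert_of_mem hu))
  generalize S0 ∪ S0⁻¹ = S at h1 hS haS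
  obtain ⟨x, hx, H⟩ := cover hp hg h1 hS (i + 1)
  obtain ⟨n0, hn0, ⟨c, hc⟩, ι, s, α, w, F, hs, hα, hw, hF, hcov⟩ := H _ (pow_pos hp.pos (10 * x))
  generalize hJ : 10 * x = J at hc
  have ha1 : a * a - a = p • (p ^ i • d) := by rw [ha, smul_smul, pow_succ']
  choose f hf1 hf2 hf3 using Lift.exists_poly
  have hin := haS.pev h1 (hf1 J)
  obtain ⟨d1, hd1⟩ : ∃ d1, pev a (f J * f J - f J) = p ^ J • d1 :=
    Lift.pev_dvd ha1 (Lift.dvd_of
      (((pow_dvd_pow _ (by omega)).trans (hf2 J)).trans ⟨f J - 1, by ring⟩)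
      (((pow_dvd_pow _ (by omega)).trans (hf3 J)).trans ⟨f J, by ring⟩))
  obtain ⟨d2, hd2⟩ : ∃ d2, pev a (f J - X) = (p ^ (i + 1)) ^ 1 • d2 :=
    Lift.pev_dvd ha (Lift.dvd_of (dvd_sub ((pow_dvd_pow _ (by omega)).trans (hf2 J)) (by simp)) (by
      have := dvd_sub ((pow_dvd_pow _ (by omega : 1 ≤ J + 1)).trans (hf3 J))
        (show (X - 1 : ℤ[X]) ^ 1 ∣ X - 1 by simp)
      rwa [sub_sub_sub_cancel_right] at this))
  rw [map_sub, map_mul, sub_eq_iff_eq_add'] at hd1
  rw [map_sub, pev_X, pow_one, sub_eq_iff_eq_add'] at hd2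
  have hfil : ∀ h v, h ∉ (S : Set G) ^ (2 * v + 1) →
      ∃ y, (pev a (f J)).coeff h = p ^ (v + 1) • y := fun h v hh => by
    rw [← Finset.coe_pow, Finset.mem_coe] at hh
    by_cases hv : v ≤ J
    · obtain ⟨d3, hd3⟩ : ∃ d3, pev a (f J - f v) = p ^ (v + 1) • d3 := Lift.pev_dvd ha1
        (Lift.dvd_of (dvd_sub ((pow_dvd_pow _ (by omega)).trans (hf2 J)) (hf2 v)) (by
          have := dvd_sub ((pow_dvd_pow _ (by omega : v + 1 ≤ J + 1)).trans (hf3 J)) (hf3 v)
          rwa [sub_sub_sub_cancel_right] at this))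
      rw [map_sub, sub_eq_iff_eq_add] at hd3
      refine ⟨d3.coeff h, ?_⟩
      rw [hd3, MonoidAlgebra.coeff_add, Finsupp.add_apply, haS.pev h1 (hf1 v) h hh, add_zero,
        MonoidAlgebra.coeff_smul, Finsupp.smul_apply]
    · exact ⟨0, by rw [hin h fun h2 => hh (pow_subset_pow_right h1 (by omega) h2), smul_zero]⟩
  generalize pev a (f J) = e at hin hd1 hd2 hfil
  let K : Ideal W := Ideal.span {(p : W) ^ J}
  let q := Ideal.Quotient.mk K
  have hq : ((p : W ⧸ K)) ^ J = 0 := by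
    rw [← map_natCast q, ← map_pow]
    exact Ideal.Quotient.eq_zero_iff_mem.2 (Ideal.mem_span_singleton_self _)
  have key := abc_cover (⟨g, Subgroup.centralizer {g}, fun h => e.coeff h,
      q.toAddMonoidHom.comp T, S ^ (2 * J + 1), p ^ J,
      Subgroup.mem_centralizer_singleton_iff.2 rfl,
      fun c hc => Subgroup.mem_centralizer_singleton_iff.1 hc, by simp, hin,
      fun h => ⟨d1.coeff h, by
        rw [← hin.conv, hd1, MonoidAlgebra.coeff_add, Finsupp.add_apply, MonoidAlgebra.coeff_smul,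
          Finsupp.smul_apply]⟩,
      fun a b => congrArg q (hT a b), by rw [Nat.cast_pow, hq]⟩ : Dat G B (W ⧸ K))
    S h1 hp hq hfil (40 * x * n0) (40 * x) (by have : 0 < x := by omega
                                               positivity)
    (by rw [hc]; push_cast; rw [hq]; ring) s α w F (by omega) hw hF fun γ hγ =>
      (hcov γ hγ trivial).imp fun i hi => ⟨hi.1, fun γ' γ'' k1 k2 k3 k4 =>
        hi.2 γ' γ'' k1 k2 (k3.trans (by omega)) (k4.trans (by omega))⟩
  have k2 : q ((p : W) ^ (∑ i ∈ s, α i) * tr T (fun h => IsConj h g) e) = 0 := by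
    rw [← key, tr_eq T _ hin, map_mul, map_pow, map_natCast, map_sum]
    simp [Dat.tr]
  obtain ⟨y, hy⟩ := Ideal.mem_span_singleton.1 (Ideal.Quotient.eq_zero_iff_mem.1 k2)
  have hcan : ∀ (n : ℕ) (w : W), (p : W) ^ n * w = 0 → w = 0 := fun n => by
    induction n with
    | zero => simp
    | succ n ih => exact fun w hw => htor w (ih _ (by rw [← hw]; ring))
  obtain ⟨r, hr⟩ := Nat.exists_eq_add_of_le (show ∑ i ∈ s, α i + (i + 1) ≤ J by omega)
  have k3 : tr T (fun h => IsConj h g) e = (p : W) ^ (i + 1) * (p ^ r * y) :=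
    sub_eq_zero.1 (hcan (∑ i ∈ s, α i) _ (by rw [mul_sub, hy, hr]; ring))
  rw [hd2, map_add, map_nsmul, nsmul_eq_mul, Nat.cast_pow] at k3
  exact ⟨p ^ r * y - tr T (fun h => IsConj h g) d2, by rw [mul_sub, ← k3]; ring⟩

lemma hom_prod (a : MonoidAlgebra B G) (l : List G) :
    ∃ r, (l.map fun h => MonoidAlgebra.single h (a.coeff h)).prod =
      MonoidAlgebra.single l.prod r := by
  induction l with
  | nil => exact ⟨1, rfl⟩
  | cons h l ih =>
    obtain ⟨r, hr⟩ := ih
    exact ⟨_, by rw [List.map_cons, List.prod_cons, hr, MonoidAlgebra.single_mul_single,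
      List.prod_cons]⟩

open _root_.Pool.Agent.Lib.MP_7903c7_al.Fin Function in
theorem necklace {T : B →+ W} (hT : ∀ a b, T (a * b) = T (b * a)) {p : ℕ} (hp : p.Prime)
    (a : MonoidAlgebra B G) (g : G) (n m : ℕ)
    (H : ∀ w ∈ words a.coeff.support (p ^ n), ¬ IsConj (w.prod ^ p ^ m) g) :
    ((p ^ (n + 1) : ℕ) : W) ∣ tr T (fun h => IsConj h g) (a ^ p ^ (n + m)) := by
  conv => enter [2, 2, 1]; rw [← a.sum_coeff_single, Finsupp.sum]
  rw [sum_pow_words, map_sum, ← Finset.sum_filter_add_sum_filter_not _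
    fun l => l.rotate (p ^ n) = l]
  refine dvd_add (Dvd.intro 0 ?_) (orbit_sum (fun l => l.rotate 1) _ _ _ ?_ ?_ ?_ ?_)
  · rw [mul_zero]
    refine (Finset.sum_eq_zero fun l hl => ?_).symm
    obtain ⟨h1, h2⟩ := Finset.mem_filter.1 hl
    obtain ⟨h3, h4⟩ := (mem_words _ _ _).1 h1
    obtain ⟨q, hq⟩ := Nat.exists_eq_succ_of_ne_zero (pow_ne_zero m hp.ne_zero)
    have h5 := prod_of_rotate l (p ^ n) q (by rw [h3, pow_add, hq]) h2
    obtain ⟨r, hr⟩ := hom_prod a l
    rw [hr, tr_single, if_neg]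
    rw [h5, ← Nat.succ_eq_add_one, ← hq]
    refine H _ ((mem_words _ _ _).2 ⟨?_, fun a ha => h4 a (List.mem_of_mem_take ha)⟩)
    rw [List.length_take, h3]
    exact min_eq_left (Nat.pow_le_pow_right hp.pos (by omega))
  · intro l _
    cases l with
    | nil => rfl
    | cons a l =>
      rw [List.rotate_cons_succ, List.rotate_zero, List.map_append, List.prod_append,
        tr_mul_comm hT (isConj_swap g)]
      simp
  · intro l hl
    obtain ⟨h1, h2⟩ := Finset.mem_filter.1 hl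
    obtain ⟨h3, h4⟩ := (mem_words _ _ _).1 h1
    refine Finset.mem_filter.2 ⟨(mem_words _ _ _).2 ⟨by simpa using h3,
      fun a ha => h4 a (List.mem_rotate.1 ha)⟩, fun h => h2 ?_⟩
    rw [List.rotate_rotate, add_comm, ← List.rotate_rotate] at h
    exact List.rotate_injective 1 h
  · intro l hl
    refine ⟨p ^ (n + m), pow_pos hp.pos _, ?_⟩
    rw [IsPeriodicPt, IsFixedPt, iterate_rotate,
      ← ((mem_words _ _ _).1 (Finset.mem_filter.1 hl).1).1, List.rotate_length]
  · intro l hl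
    obtain ⟨h1, h2⟩ := Finset.mem_filter.1 hl
    have h3 : minimalPeriod (fun l : List G => l.rotate 1) l ∣ p ^ (n + m) := by
      apply IsPeriodicPt.minimalPeriod_dvd
      rw [IsPeriodicPt, IsFixedPt, iterate_rotate, ← ((mem_words _ _ _).1 h1).1,
        List.rotate_length]
    obtain ⟨j, -, hj⟩ := (Nat.dvd_prime_pow hp).1 h3
    rw [hj]
    refine pow_dvd_pow _ (Nat.succ_le_of_lt (not_le.1 fun hle => h2 ?_))
    have h4 := isPeriodicPt_iff_minimalPeriod_dvd.2 (hj ▸ pow_dvd_pow p hle)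
    rwa [IsPeriodicPt, IsFixedPt, iterate_rotate] at h4

/-- Elements of finite order divisible by `p`. -/
theorem finite_order {T : B →+ W} (hT : ∀ a b, T (a * b) = T (b * a)) {p : ℕ} (hp : p.Prime)
    {a d : MonoidAlgebra B G} {j : ℕ} (ha : a * a - a = p ^ j • d) {g : G} (h0 : orderOf g ≠ 0)
    (hd : p ∣ orderOf g) : (p : W) ^ j ∣ tr T (fun h => IsConj h g) a := by
  by_contra hne
  have hpow : ∀ k : ℕ, ∃ z, a ^ (k + 1) = a + p ^ j • z := fun k => by
    induction k with
    | zero => exact ⟨0, by simp⟩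
    | succ k ih =>
      obtain ⟨z, hz⟩ := ih
      exact ⟨d + z * a, by
        rw [pow_succ, hz, add_mul, sub_eq_iff_eq_add'.1 ha, smul_mul_assoc, smul_add, add_assoc]⟩
  have key : ∀ m : ℕ, ∃ w ∈ Fin.words a.coeff.support (p ^ j), IsConj (w.prod ^ p ^ m) g :=
    fun m => by
    by_contra hc
    push Not at hc
    have h1 := necklace hT hp a g j m hc
    obtain ⟨q, hq⟩ := Nat.exists_eq_succ_of_ne_zero (pow_ne_zero (j + m) hp.ne_zero)
    obtain ⟨z, hz⟩ := hpow q
    rw [hq, hz, map_add, map_nsmul, nsmul_eq_mul, Nat.cast_pow, Nat.cast_pow] at h1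
    exact hne ((dvd_add_left (dvd_mul_right _ _)).1 ((pow_dvd_pow _ j.le_succ).trans h1))
  choose f hf1 hf2 using key
  obtain ⟨u, v, huv, he⟩ := Set.Finite.exists_lt_map_eq_of_forall_mem (f := f) hf1
    (Finset.finite_toSet _)
  obtain ⟨m, rfl⟩ := Nat.exists_eq_add_of_lt huv
  have hc : IsConj g (g ^ p ^ (m + 1)) := by
    refine (hf2 (u + m + 1)).symm.trans ?_
    rw [← he, add_assoc, pow_add, pow_mul]
    exact (hf2 u).pow _
  obtain ⟨c, hc⟩ := hc
  have h4 := SemiconjBy.orderOf_eq (c : G) hc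
  rw [orderOf_pow' _ (pow_ne_zero _ hp.ne_zero)] at h4
  have h5 : p ∣ (orderOf g).gcd (p ^ (m + 1)) := Nat.dvd_gcd hd (dvd_pow_self p m.succ_ne_zero)
  have h6 := Nat.le_of_dvd (Nat.gcd_pos_of_pos_left _ (Nat.pos_of_ne_zero h0)) h5
  exact (Nat.div_lt_self (Nat.pos_of_ne_zero h0) (hp.one_lt.trans_le h6)).ne' h4

end Pool.Agent.Lib.MP_7903c7_al.NC
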