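import Pool.Agent.Lib.MP_7903c7_al.NC.Main

set_option autoImplicit false

/-!
Matrices over a group ring, and traces with values in an abelian group.
-/

namespace Pool.Agent.Lib.MP_7903c7_al.NC

open Finset
open scoped Classical

variable {G B I M : Type} [Group G] [Ring B] [Fintype I] [DecidableEq I] [AddCommGroup M]

/-- The support of a matrix. -/
noncomputable def sp (A : Matrix I I (MonoidAlgebra B G)) : Finset G :=
  univ.biUnion fun q : I × I => (A q.1 q.2).coeff.support

/-- A matrix over the group ring as an element of the group ring of the matrix ring. -/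
noncomputable def flat (A : Matrix I I (MonoidAlgebra B G)) : MonoidAlgebra (Matrix I I B) G :=
  MonoidAlgebra.ofCoeff (Finsupp.onFinset (sp A) (fun h => Matrix.of fun i j => (A i j).coeff h)
    fun h hh => by
      by_contra hn
      refine hh (Matrix.ext fun i j => ?_)
      exact Finsupp.notMem_support_iff.1 fun hu =>
        hn (mem_biUnion.2 ⟨(i, j), mem_univ _, hu⟩))

omit [Group G] in
lemma flat_coeff (A : Matrix I I (MonoidAlgebra B G)) (h : G) (i j : I) :
    (flat A).coeff h i j = (A i j).coeff h := rfl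

omit [Group G] in
lemma flat_in (A : Matrix I I (MonoidAlgebra B G)) : In (sp A) (flat A) := fun _ hn =>
  Matrix.ext fun i j => Finsupp.notMem_support_iff.1 fun hu =>
    hn (mem_biUnion.2 ⟨(i, j), mem_univ _, hu⟩)

lemma flat_mul (A A' : Matrix I I (MonoidAlgebra B G)) : flat (A * A') = flat A * flat A' := by
  ext h i j
  rw [(flat_in A).conv, flat_coeff, Matrix.mul_apply, MonoidAlgebra.coeff_sum,
    Finsupp.finsetSum_apply, Matrix.sum_apply]
  simp only [Matrix.mul_apply, flat_coeff]
  rw [sum_comm]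
  exact sum_congr rfl fun k _ => In.conv (fun u hu => Finsupp.notMem_support_iff.1 fun h2 =>
    hu (mem_biUnion.2 ⟨(i, k), mem_univ _, h2⟩)) _ _

theorem main (T : B →+ M) (hT : ∀ a b, T (a * b) = T (b * a)) {p : ℕ} (hp : p.Prime)
    (hM : ∀ m : M, p • m = 0 → m = 0) {A D : Matrix I I (MonoidAlgebra B G)} {j : ℕ}
    (hA : A * A - A = p ^ j • D) {g : G} (hg : p ∣ orderOf g) :
    ∃ m : M, ∑ i, ∑ h ∈ (A i i).coeff.support with IsConj h g, T ((A i i).coeff h) =
      p ^ j • m := by
  let _ : Module ℤᵐᵒᵖ M := Module.compHom M ((RingHom.id ℤ).fromOpposite mul_comm)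
  have _ : IsCentralScalar ℤ M := ⟨fun _ _ => rfl⟩
  let T0 : Matrix I I B →+ TrivSqZeroExt ℤ M :=
    ((TrivSqZeroExt.inrHom ℤ M).toAddMonoidHom.comp T).comp (Matrix.traceAddMonoidHom I B)
  have e0 : ∀ X, T0 X = TrivSqZeroExt.inr (∑ i, T (X i i)) := fun X => by
    rw [← map_sum T]
    rfl
  have hT0 : ∀ X Y, T0 (X * Y) = T0 (Y * X) := fun X Y => by
    rw [e0, e0]
    simp only [Matrix.mul_apply, map_sum]
    rw [sum_comm]
    simp only [hT (X _ _)]
  have htor : ∀ w : TrivSqZeroExt ℤ M, p * w = 0 → w = 0 := fun w hw => by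
    rw [← nsmul_eq_mul] at hw
    refine TrivSqZeroExt.ext ?_ (hM _ (congrArg TrivSqZeroExt.snd hw))
    have : p • w.fst = 0 := congrArg TrivSqZeroExt.fst hw
    exact (smul_eq_zero.1 this).resolve_left hp.ne_zero
  have ha : flat A * flat A - flat A = p ^ j • flat D := by
    rw [← flat_mul]
    ext h i k
    exact congrArg (fun X : Matrix I I (MonoidAlgebra B G) => (X i k).coeff h) hA
  have key : (p : TrivSqZeroExt ℤ M) ^ j ∣ tr T0 (fun h => IsConj h g) (flat A) := by
    by_cases h0 : orderOf g = 0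
    · exact infinite_order hT0 hp htor ha h0
    · exact finite_order hT0 hp ha h0 hg
  obtain ⟨w, hw⟩ := key
  refine ⟨w.snd, ?_⟩
  rw [← Nat.cast_pow, ← nsmul_eq_mul, tr_eq T0 _ (flat_in A)] at hw
  have h2 := congrArg TrivSqZeroExt.snd hw
  simp only [e0, TrivSqZeroExt.snd_sum, TrivSqZeroExt.snd_inr, flat_coeff] at h2
  refine Eq.trans ?_ h2
  rw [sum_comm]
  refine sum_congr rfl fun i _ => sum_subset (fun h hh => ?_) fun h h1 h3 => ?_
  · exact mem_filter.2 ⟨mem_biUnion.2 ⟨(i, i), mem_univ _, (mem_filter.1 hh).1⟩,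
      (mem_filter.1 hh).2⟩
  · rw [Finsupp.notMem_support_iff.1 fun hu => h3 (mem_filter.2 ⟨hu, (mem_filter.1 h1).2⟩),
      map_zero]

end Pool.Agent.Lib.MP_7903c7_al.NC
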